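import Mathlib
import Pool.Agent.helper68.AM.Spec

/-!
Project AM (MP_d52931_gt), module TOT: the number of primitive points in the two cones.
-/

set_option autoImplicit false

namespace AM

open Pool.Agent.helper72.Sq Finset

/-- positivity of the quadratic coefficient -/
lemma TOT_pos {P : Tri} (hP : Adm P) {a b K K' : ℝ}
    (ha : ∀ R : ℝ, 1 ≤ R → |Ht P R - a * R ^ 2| ≤ K * R)
    (hb : ∀ R : ℝ, 1 ≤ R → |Ht (Tw P) R - b * R ^ 2| ≤ K' * R) : 0 < a + b := by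
  have hT : ∀ R, 1 ≤ R → |(H P R + H (Tw P) R) - (a + b) * R ^ 2| ≤ (K + K') * R := by
    intro R hR
    have e : (H P R + H (Tw P) R) - (a + b) * R ^ 2 =
      (Ht P R - a * R ^ 2) + (Ht (Tw P) R - b * R ^ 2) := by
      unfold Ht Tw; ring
    rw [e]
    refine (abs_add_le _ _).trans ((add_le_add (ha R hR) (hb R hR)).trans (le_of_eq ?_))
    ring
  have hlow : ∃ d1 C : ℝ, 0 < d1 ∧ 0 ≤ C ∧ ∀ R, 1 ≤ R → d1 * R ^ 2 - C * R ≤ H P R + H (Tw P) R := by
    have hx := hP.x2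
    have hy := hP.y2
    rcases le_or_gt (P.1 * P.2.1) (2 * P.2.2) with hz | hz
    · obtain ⟨d1, C, hd1, hC, h⟩ := Gr.lower ⟨hP.x2, hP.y2, hP.kpos, hz⟩
      refine ⟨d1, C, hd1, hC, fun R hR => (h R hR).trans ?_⟩
      have : 0 ≤ H (Tw P) R := Nat.cast_nonneg _
      linarith
    · obtain ⟨d1, C, hd1, hC, h⟩ := Gr.lower (P := Tw P) ⟨hP.Tw.x2, hP.Tw.y2, hP.Tw.kpos, by
        simp only [Tw]; nlinarith⟩
      refine ⟨d1, C, hd1, hC, fun R hR => (h R hR).trans ?_⟩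
      have : 0 ≤ H P R := Nat.cast_nonneg _
      linarith
  obtain ⟨d1, C, hd1, hC, h⟩ := hlow
  by_contra hcon
  push Not at hcon
  set R := (C + |K| + |K'| + 1) / d1 + 1 with hR
  have hK1 := le_abs_self K
  have hK2 := le_abs_self K'
  have hK3 := abs_nonneg K
  have hK4 := abs_nonneg K'
  have hR1 : 1 ≤ R := by
    rw [hR]
    have : 0 ≤ (C + |K| + |K'| + 1) / d1 := by positivity
    linarith
  have h1 := h R hR1
  have h2 := (abs_le.1 (hT R hR1)).2
  have h4 : (a + b) * R ^ 2 ≤ 0 := mul_nonpos_of_nonpos_of_nonneg hcon (by positivity)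
  have h5 : (K + K') * R ≤ (|K| + |K'|) * R := by
    apply mul_le_mul_of_nonneg_right _ (by linarith)
    linarith
  have h6 : d1 * R ^ 2 ≤ (C + |K| + |K'|) * R := by nlinarith
  have h7 : d1 * R ≤ C + |K| + |K'| := by
    have : d1 * R * R ≤ (C + |K| + |K'|) * R := by nlinarith
    exact le_of_mul_le_mul_right this (by linarith)
  have h8 : d1 * R = C + |K| + |K'| + 1 + d1 := by rw [hR]; field_simp
  linarith

theorem TOT (hMBA : MBA_stmt) : TOT_stmt := by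
  intro P hP
  have hG1 := hMBA P hP
  have hG2 := hMBA (Tw P) hP.Tw
  refine ⟨fun R => (hG1.fin R).subset (CS_subset _ _), fun R => (hG2.fin R).subset (CS_subset _ _), ?_⟩
  obtain ⟨a, ⟨K, ha⟩, hma⟩ := hG1.est
  obtain ⟨b, ⟨K', hb⟩, hmb⟩ := hG2.est
  have hab := TOT_pos hP ha hb
  obtain ⟨c1, hc1, hm1⟩ := min_length hP (hG1.fin 1)
  obtain ⟨c2, hc2, hm2⟩ := min_length hP.Tw (hG2.fin 1)
  set c0 := min c1 c2 with hc0
  have hc00 : 0 < c0 := lt_min hc1 hc2
  have hca : ∀ p q, 1 ≤ p → c0 ≤ Lam P p q := fun p q hp => (min_le_left _ _).trans (hm1 p q hp)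
  have hcb : ∀ p q, 1 ≤ p → c0 ≤ Lam (Tw P) p q := fun p q hp =>
    (min_le_right _ _).trans (hm2 p q hp)
  obtain ⟨S, hS0, hS⟩ := ms_limit
  obtain ⟨K1, hK1⟩ := hma (1 / c0 + 1)
  obtain ⟨K2, hK2⟩ := hmb (1 / c0 + 1)
  refine ⟨(a + b) * S, |K1| + |K2| + (a + b) * c0, by positivity, by positivity, ?_⟩
  intro R hR
  have R0 : 0 < R := by linarith
  set D := ⌈R / c0⌉₊ with hD
  have hD1 : R / c0 ≤ D := Nat.le_ceil _
  have hD2 : (D : ℝ) ≤ (1 / c0 + 1) * R := by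
    have := (Nat.ceil_lt_add_one (a := R / c0) (by positivity)).le
    have e : (1 / c0 + 1) * R = R / c0 + R := by ring
    linarith
  have hD0 : 1 ≤ D := by
    have : 0 < R / c0 := by positivity
    exact Nat.ceil_pos.2 this
  have hD0' : (0 : ℝ) < D := by exact_mod_cast hD0
  rw [CS_ncard P R (hG1.fin R) D (gcd_le hc00 hca hD1),
    CS_ncard (Tw P) R (hG2.fin R) D (gcd_le hc00 hcb hD1)]
  have e1 : (∑ d ∈ Finset.Icc 1 D, (ArithmeticFunction.moebius d : ℝ) * H P (R / d)) +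
      (∑ d ∈ Finset.Icc 1 D, (ArithmeticFunction.moebius d : ℝ) * H (Tw P) (R / d)) -
        (a + b) * S * R ^ 2 =
      (∑ d ∈ Finset.Icc 1 D, mu d * (Ht P (R / d) - a * (R / d) ^ 2)) +
      (∑ d ∈ Finset.Icc 1 D, mu d * (Ht (Tw P) (R / d) - b * (R / d) ^ 2)) +
        (a + b) * R ^ 2 * (ms D - S) := by
    have e2 : (∑ d ∈ Finset.Icc 1 D, mu d * (Ht P (R / d) - a * (R / d) ^ 2)) +
        (∑ d ∈ Finset.Icc 1 D, mu d * (Ht (Tw P) (R / d) - b * (R / d) ^ 2)) =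
        (∑ d ∈ Finset.Icc 1 D, (ArithmeticFunction.moebius d : ℝ) * H P (R / d)) +
        (∑ d ∈ Finset.Icc 1 D, (ArithmeticFunction.moebius d : ℝ) * H (Tw P) (R / d)) -
          (a + b) * R ^ 2 * ms D := by
      unfold ms
      rw [Finset.mul_sum, ← Finset.sum_add_distrib, ← Finset.sum_add_distrib,
        ← Finset.sum_sub_distrib]
      apply Finset.sum_congr rfl
      intro d _
      unfold mu Ht Tw
      rw [div_pow]
      ring
    rw [e2]
    ring
  rw [e1]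
  have h1 : |(a + b) * R ^ 2 * (ms D - S)| ≤ (a + b) * c0 * R := by
    rw [abs_mul, abs_of_nonneg (show 0 ≤ (a + b) * R ^ 2 by positivity)]
    have h2 := hS D hD0
    have h3 : 1 / (D : ℝ) ≤ c0 / R := by
      rw [div_le_div_iff₀ hD0' R0]
      rw [div_le_iff₀ hc00] at hD1
      linarith
    calc (a + b) * R ^ 2 * |ms D - S| ≤ (a + b) * R ^ 2 * (c0 / R) := by gcongr; linarith
      _ = (a + b) * c0 * R := by field_simp
  have h2 : |∑ d ∈ Finset.Icc 1 D, mu d * (Ht P (R / d) - a * (R / d) ^ 2)| ≤ |K1| * R :=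
    (hK1 R hR D hD2).trans (mul_le_mul_of_nonneg_right (le_abs_self _) R0.le)
  have h3 : |∑ d ∈ Finset.Icc 1 D, mu d * (Ht (Tw P) (R / d) - b * (R / d) ^ 2)| ≤ |K2| * R :=
    (hK2 R hR D hD2).trans (mul_le_mul_of_nonneg_right (le_abs_self _) R0.le)
  refine (abs_add_le _ _).trans ?_
  refine (add_le_add (abs_add_le _ _) le_rfl).trans ?_
  calc _ ≤ |K1| * R + |K2| * R + (a + b) * c0 * R := add_le_add (add_le_add h2 h3) h1
    _ = _ := by ring

end AM
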